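import Pool.Agent.Y142.ZD.Stm
import Pool.Agent.Y497.ZO.LogPow

set_option autoImplicit false

/-!
Project Y142-ZD (owner helper142), task `S_ABS`: absolute irreducibility.
-/

open Matrix Polynomial Filter Topology

namespace Pool.Agent.Y758.ZD

/-! ### density -/

section density

variable {K V : Type} [Field K] [AddCommGroup V] [Module K V] [FiniteDimensional K V]
  [Nontrivial V]

theorem burnside (S : Subalgebra K (Module.End K V))
    (hirr : ∀ W : Submodule K V, (∀ a ∈ S, ∀ w ∈ W, a w ∈ W) → W = ⊥ ∨ W = ⊤)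
    (hcom : ∀ d : Module.End K V, (∀ a ∈ S, d * a = a * d) → ∃ c : K, ∀ v, d v = c • v) :
    S = ⊤ := by
  classical
  have hsm : ∀ (c : K) (v : V), (algebraMap K S c) • v = c • v := by
    intro c v
    rw [Subalgebra.smul_def, Subalgebra.coe_algebraMap, Module.End.smul_def,
      Module.algebraMap_end_apply]
  have hsimp : IsSimpleModule S V := by
    rw [isSimpleModule_iff]
    refine { exists_pair_ne := ⟨⊥, ⊤, bot_ne_top⟩, eq_bot_or_eq_top := fun W => ?_ }
    let W' : Submodule K V :=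
      { carrier := W
        add_mem' := fun h1 h2 => W.add_mem h1 h2
        zero_mem' := W.zero_mem
        smul_mem' := fun c w hw => by
          have h1 : (algebraMap K S c) • w ∈ W := W.smul_mem _ hw
          rw [hsm] at h1
          exact h1 }
    have h1 := hirr W' (fun a ha w hw => W.smul_mem (⟨a, ha⟩ : S) hw)
    rcases h1 with h1 | h1
    · left
      rw [eq_bot_iff]
      intro w hw
      have h2 : w ∈ W' := hw
      rw [h1] at h2
      exact h2
    · right
      rw [eq_top_iff]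
      intro w _
      have h2 : w ∈ W' := by rw [h1]; trivial
      exact h2
  have hlin : ∀ g : Module.End S V, ∃ c : K, ∀ v, g v = c • v := by
    intro g
    let d : Module.End K V :=
      { toFun := g
        map_add' := fun x y => map_add g x y
        map_smul' := fun c v => by
          rw [← hsm, map_smul, hsm]
          rfl }
    obtain ⟨c, hc⟩ := hcom d (fun a ha => by
      refine LinearMap.ext fun v => ?_
      exact g.map_smul (⟨a, ha⟩ : S) v)
    exact ⟨c, fun v => hc v⟩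
  rw [eq_top_iff]
  intro φ _
  let f : Module.End (Module.End S V) V :=
    { toFun := φ
      map_add' := fun x y => map_add φ x y
      map_smul' := fun g v => by
        obtain ⟨c, hc⟩ := hlin g
        show φ (g v) = g (φ v)
        rw [hc, hc, map_smul] }
  let b := Module.finBasis K V
  obtain ⟨r, hr⟩ := jacobson_density f (Finset.univ.image b)
  have h1 : φ = r.1 := b.ext fun i => hr (b i) (Finset.mem_image_of_mem _ (Finset.mem_univ i))
  rw [h1]
  exact r.2

end density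

/-! ### eigenvectors -/

section eigen

variable {K : Type} [Field K] {N : ℕ}

theorem aeval_mulVec (g : Matrix (Fin N) (Fin N) K) (v : Fin N → K) (k : ℕ) (a : K)
    (h : g ^ k *ᵥ v = a ^ k • v) : (aeval g (X ^ k - C (a ^ k))) *ᵥ v = 0 := by
  rw [map_sub, map_pow, aeval_X, aeval_C, Matrix.sub_mulVec, h, Algebra.algebraMap_eq_smul_one,
    Matrix.smul_mulVec, Matrix.one_mulVec, sub_self]

theorem eigen_pow (g : Matrix (Fin N) (Fin N) K) (a : K) (k : ℕ)
    (hsep : g.charpoly.Separable) (ha : g.charpoly.eval a = 0)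
    (hdist : ∀ x y : AlgebraicClosure K, aeval x g.charpoly = 0 → aeval y g.charpoly = 0 →
      x ^ k = y ^ k → x = y) (v : Fin N → K) (hv : g ^ k *ᵥ v = a ^ k • v) :
    g *ᵥ v = a • v := by
  obtain ⟨q, hq⟩ := (dvd_iff_isRoot (p := g.charpoly) (a := a)).2 ha
  have hcop : IsCoprime q (X ^ k - C (a ^ k)) := by
    rw [Polynomial.isCoprime_iff_aeval_ne_zero_of_isAlgClosed (k := K) (AlgebraicClosure K)]
    intro x
    by_contra hcon
    push Not at hcon
    obtain ⟨h1, h2⟩ := hcon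
    rw [map_sub, map_pow, aeval_X, aeval_C, map_pow, sub_eq_zero] at h2
    have hx : aeval x g.charpoly = 0 := by rw [hq, map_mul, h1, mul_zero]
    have hy : aeval (algebraMap K (AlgebraicClosure K) a) g.charpoly = 0 := by
      rw [aeval_algebraMap_apply, Polynomial.coe_aeval_eq_eval, ha, map_zero]
    have hxa := hdist x _ hx hy h2
    rw [hxa, aeval_algebraMap_apply, Polynomial.coe_aeval_eq_eval,
      map_eq_zero_iff _ (algebraMap K (AlgebraicClosure K)).injective] at h1
    -- `a` would be a double root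
    have h3 : (X - C a) * (X - C a) ∣ g.charpoly := by
      rw [hq]
      exact mul_dvd_mul_left _ ((dvd_iff_isRoot (p := q) (a := a)).2 h1)
    have h4 : IsCoprime (X - C a) (X - C a) := (hsep.of_dvd h3).isCoprime
    have h5 := isCoprime_self.1 h4
    exact Polynomial.not_isUnit_X_sub_C a h5
  obtain ⟨u, w, huw⟩ := hcop
  have h0 := aeval_mulVec g v k a hv
  have h1 : (aeval g (u * q)) *ᵥ v = v := by
    have h2 : aeval g (u * q) = 1 - aeval g w * aeval g (X ^ k - C (a ^ k)) := by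
      rw [← map_mul, ← map_one (aeval g : K[X] →ₐ[K] Matrix (Fin N) (Fin N) K), ← map_sub, ← huw]
      congr 1
      ring
    rw [h2, Matrix.sub_mulVec, Matrix.one_mulVec, ← Matrix.mulVec_mulVec, h0, Matrix.mulVec_zero,
      sub_zero]
  have h2 : (aeval g (X - C a)) *ᵥ v = 0 := by
    rw [← h1, Matrix.mulVec_mulVec, ← map_mul]
    have h3 : (X - C a) * (u * q) = u * g.charpoly := by rw [hq]; ring
    rw [h3, map_mul, Matrix.aeval_self_charpoly, mul_zero, Matrix.zero_mulVec]
  rw [map_sub, aeval_X, aeval_C, Matrix.sub_mulVec, Algebra.algebraMap_eq_smul_one,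
    Matrix.smul_mulVec, Matrix.one_mulVec, sub_eq_zero] at h2
  exact h2

theorem eigen_comm (g d : Matrix (Fin N) (Fin N) K) (a : K) (k : ℕ)
    (hsep : g.charpoly.Separable) (ha : g.charpoly.eval a = 0)
    (hdist : ∀ x y : AlgebraicClosure K, aeval x g.charpoly = 0 → aeval y g.charpoly = 0 →
      x ^ k = y ^ k → x = y) (hd : d * g ^ k = g ^ k * d) :
    ∃ (e : Fin N → K) (c : K), e ≠ 0 ∧ d *ᵥ e = c • e := by
  have hch : (Matrix.toLin' g).charpoly = g.charpoly := Matrix.charpoly_toLin' g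
  have hev : Module.End.HasEigenvalue (Matrix.toLin' g) a := by
    rw [Module.End.hasEigenvalue_iff_isRoot_charpoly, hch]
    exact ha
  obtain ⟨e, he⟩ := hev.exists_hasEigenvector
  have he0 : e ≠ 0 := he.2
  have he1 : g *ᵥ e = a • e := by
    have := he.apply_eq_smul
    rwa [Matrix.toLin'_apply] at this
  have hek : ∀ j : ℕ, g ^ j *ᵥ e = a ^ j • e := by
    intro j
    induction j with
    | zero => simp
    | succ j ih =>
      rw [pow_succ, ← Matrix.mulVec_mulVec, he1, Matrix.mulVec_smul, ih, smul_smul, pow_succ,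
        mul_comm]
  have hde : g *ᵥ (d *ᵥ e) = a • (d *ᵥ e) := by
    apply eigen_pow g a k hsep ha hdist
    rw [Matrix.mulVec_mulVec, ← hd, ← Matrix.mulVec_mulVec, hek, Matrix.mulVec_smul]
  -- the eigenspace is one-dimensional
  have hdim : Module.finrank K (Module.End.eigenspace (Matrix.toLin' g) a) ≤ 1 := by
    refine (LinearMap.finrank_eigenspace_le (Matrix.toLin' g) a).trans ?_
    rw [hch]
    exact rootMultiplicity_le_one_of_separable hsep a
  obtain ⟨v0, hv0⟩ := finrank_le_one_iff.1 hdim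
  obtain ⟨c1, hc1⟩ := hv0 ⟨e, by
    rw [Module.End.mem_eigenspace_iff, Matrix.toLin'_apply]
    exact he1⟩
  obtain ⟨c2, hc2⟩ := hv0 ⟨d *ᵥ e, by
    rw [Module.End.mem_eigenspace_iff, Matrix.toLin'_apply]
    exact hde⟩
  have h1 : c1 • (v0 : Fin N → K) = e := congrArg Subtype.val hc1
  have h2 : c2 • (v0 : Fin N → K) = d *ᵥ e := congrArg Subtype.val hc2
  have hc0 : c1 ≠ 0 := by
    rintro rfl
    rw [zero_smul] at h1
    exact he0 h1.symm
  refine ⟨e, c2 / c1, he0, ?_⟩
  rw [← h2]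
  rw [← h1, smul_smul, div_mul_cancel₀ _ hc0]

end eigen

/-! ### commutants -/

section comm

open Pool.Agent.Y142.ZO Pool.Agent.Y497.ZO

attribute [local instance] Matrix.normedAddCommGroup Matrix.normedSpace

variable {ℓ : ℕ} [Fact ℓ.Prime] {N : ℕ}

local instance ultra : IsUltrametricDist (Mt ℓ N) :=
  inferInstanceAs (IsUltrametricDist (Fin N → Fin N → ℚ_[ℓ]))

/-- the commutator with `d` -/
noncomputable def br (d : Mt ℓ N) : Mt ℓ N →ₗ[ℚ_[ℓ]] Mt ℓ N where
  toFun A := d * A - A * d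
  map_add' A B := by rw [mul_add, add_mul]; abel
  map_smul' a A := by rw [RingHom.id_apply, Matrix.mul_smul, Matrix.smul_mul, smul_sub]

theorem br_pow (d A : Mt ℓ N) (hA : ‖A‖ ≤ 1) (k : ℕ) : ‖br d (A ^ k)‖ ≤ ‖br d A‖ := by
  have hk : ∀ j : ℕ, ‖A ^ j‖ ≤ 1 := by
    intro j
    rcases Nat.eq_zero_or_pos j with rfl | hj
    · rw [pow_zero]
      exact none'
    · exact npow A hA le_rfl j hj
  induction k with
  | zero =>
    have : br d (A ^ 0) = 0 := by
      show d * A ^ 0 - A ^ 0 * d = 0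
      rw [pow_zero, mul_one, one_mul, sub_self]
    rw [this, norm_zero]
    exact norm_nonneg _
  | succ k ih =>
    have h1 : br d (A ^ (k + 1)) = br d (A ^ k) * A + A ^ k * br d A := by
      show d * A ^ (k + 1) - A ^ (k + 1) * d = (d * A ^ k - A ^ k * d) * A + A ^ k * (d * A - A * d)
      rw [pow_succ]
      noncomm_ring
    rw [h1]
    refine (IsUltrametricDist.norm_add_le_max _ _).trans (max_le ?_ ?_)
    · calc ‖br d (A ^ k) * A‖ ≤ ‖br d (A ^ k)‖ * ‖A‖ := nmul _ _
        _ ≤ ‖br d A‖ * 1 := mul_le_mul ih hA (norm_nonneg _) (norm_nonneg _)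
        _ = _ := mul_one _
    · calc ‖A ^ k * br d A‖ ≤ ‖A ^ k‖ * ‖br d A‖ := nmul _ _
        _ ≤ 1 * ‖br d A‖ := mul_le_mul_of_nonneg_right (hk k) (norm_nonneg _)
        _ = _ := one_mul _

/-- a matrix which commutes with the tangent vectors commutes with the image of an element near
the identity -/
theorem comm_near {G : Type} [Group G] (ρ : G →* Mt ℓ N) (d : Mt ℓ N)
    (hd : ∀ X, IsTangent ℓ ρ X → d * X = X * d) (σ : G) (hσ : Near ℓ (ρ σ)) :
    d * ρ σ = ρ σ * d := by
  have h0 : ‖Aj (ρ σ) 0‖ ≤ 1 := aj_zero (ρ σ) (by rw [mul_one]; exact (near_iff _).1 hσ)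
  obtain ⟨A, hA⟩ := exists_lim (ρ σ) h0
  have h1 := norm_lim (br d) le_rfl (fun A hA k _ => br_pow d A hA k) (ρ σ) h0 A hA
  have h2 : br d A = 0 := by
    show d * A - A * d = 0
    rw [hd A (aj_tangent ρ σ A hA), sub_self]
  rw [h2, norm_zero] at h1
  have h3 : br d (Aj (ρ σ) 0) = 0 := norm_eq_zero.1 h1.symm
  have h4 : br d (ρ σ) = 0 := by
    have h5 := pow_eq (ρ σ) 0
    rw [pow_zero, pow_one] at h5
    rw [h5, map_add, map_smul, h3, smul_zero, add_zero]
    show d * 1 - 1 * d = 0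
    rw [mul_one, one_mul, sub_self]
  exact sub_eq_zero.1 h4

end comm

/-! ### the theorem -/

open Pool.Agent.Y142.ZO Pool.Agent.Y142.ZI Pool.Agent.Y142.ZD

theorem t : S_ABS := by
  intro ℓ _ N G _ _ _ _ ρ hρ hSI σ hsep hdist hroot 𝒜 h𝒜
  obtain ⟨a, ha⟩ := hroot
  -- an eigenvector
  obtain ⟨e0, -, he0, -⟩ := eigen_comm (ρ σ) 1 a 1 hsep ha
    (fun x y hx hy h => hdist 1 x y one_pos hx hy h) (by rw [one_mul, mul_one])
  have hnt : Nontrivial (Fin N → ℚ_[ℓ]) := ⟨⟨e0, 0, he0⟩⟩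
  -- subspaces stable under the tangent vectors
  have hirr : ∀ W : Submodule ℚ_[ℓ] (Fin N → ℚ_[ℓ]),
      (∀ X, IsTangent ℓ ρ X → ∀ w ∈ W, X *ᵥ w ∈ W) → W = ⊥ ∨ W = ⊤ := by
    intro W hW
    obtain ⟨U, hU, h1⟩ := Pool.Agent.Y497.ZO.exp ℓ N G ρ hρ W W le_rfl hW
    refine hSI U W hU fun τ hτ w hw => ?_
    have h2 := W.add_mem (h1 τ hτ w hw) hw
    rwa [sub_add_cancel] at h2
  let S : Subalgebra ℚ_[ℓ] (Module.End ℚ_[ℓ] (Fin N → ℚ_[ℓ])) :=
    𝒜.map (Matrix.toLinAlgEquiv' : Matrix (Fin N) (Fin N) ℚ_[ℓ] ≃ₐ[ℚ_[ℓ]] _).toAlgHom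
  have hmem : ∀ X ∈ 𝒜, Matrix.toLin' X ∈ S := fun X hX => ⟨X, hX, rfl⟩
  have hirrS : ∀ W : Submodule ℚ_[ℓ] (Fin N → ℚ_[ℓ]), (∀ f ∈ S, ∀ w ∈ W, f w ∈ W) →
      W = ⊥ ∨ W = ⊤ := by
    intro W hW
    refine hirr W fun X hX w hw => ?_
    have := hW _ (hmem X (h𝒜 X hX)) w hw
    rwa [Matrix.toLin'_apply] at this
  have hcom : ∀ d : Module.End ℚ_[ℓ] (Fin N → ℚ_[ℓ]), (∀ f ∈ S, d * f = f * d) →
      ∃ c : ℚ_[ℓ], ∀ v, d v = c • v := by
    intro d hd
    obtain ⟨D, rfl⟩ : ∃ D : Matrix (Fin N) (Fin N) ℚ_[ℓ], Matrix.toLin' D = d :=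
      ⟨LinearMap.toMatrix' d, Matrix.toLin'_toMatrix' d⟩
    have hD : ∀ X ∈ 𝒜, D * X = X * D := by
      intro X hX
      have h1 := hd _ (hmem X hX)
      rw [Module.End.mul_eq_comp, Module.End.mul_eq_comp, ← Matrix.toLin'_mul,
        ← Matrix.toLin'_mul] at h1
      exact Matrix.toLin'.injective h1
    obtain ⟨⟨U, hU, hnear⟩, hpow⟩ := Pool.Agent.Y497.ZO.pow ℓ N G ρ hρ
    obtain ⟨n, hn, hnU⟩ := hpow U hU σ
    have h1 := comm_near ρ D (fun X hX => hD X (h𝒜 X hX)) (σ ^ n) (hnear _ hnU)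
    rw [map_pow] at h1
    obtain ⟨e, c, he, hec⟩ := eigen_comm (ρ σ) D a n hsep ha
      (fun x y hx hy h => hdist n x y hn hx hy h) h1
    refine ⟨c, ?_⟩
    have h2 := hirrS (LinearMap.ker (Matrix.toLin' D - c • (1 : Module.End ℚ_[ℓ] (Fin N → ℚ_[ℓ]))))
      (by
        intro f hf w hw
        rw [LinearMap.mem_ker, LinearMap.sub_apply, LinearMap.smul_apply, Module.End.one_apply,
          sub_eq_zero] at hw ⊢
        have h3 := congrArg (fun h : Module.End ℚ_[ℓ] (Fin N → ℚ_[ℓ]) => h w) (hd f hf)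
        simp only [Module.End.mul_apply] at h3
        rw [h3, hw, map_smul])
    rcases h2 with h2 | h2
    · exfalso
      apply he
      have h3 : e ∈ LinearMap.ker
          (Matrix.toLin' D - c • (1 : Module.End ℚ_[ℓ] (Fin N → ℚ_[ℓ]))) := by
        rw [LinearMap.mem_ker, LinearMap.sub_apply, LinearMap.smul_apply, Module.End.one_apply,
          sub_eq_zero, Matrix.toLin'_apply]
        exact hec
      rw [h2] at h3
      exact h3
    · intro v
      have h3 : v ∈ LinearMap.ker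
          (Matrix.toLin' D - c • (1 : Module.End ℚ_[ℓ] (Fin N → ℚ_[ℓ]))) := by
        rw [h2]; trivial
      rw [LinearMap.mem_ker, LinearMap.sub_apply, LinearMap.smul_apply, Module.End.one_apply,
        sub_eq_zero] at h3
      exact h3
  have hS := burnside S hirrS hcom
  rw [eq_top_iff]
  intro X _
  have h1 : Matrix.toLin' X ∈ S := by rw [hS]; trivial
  obtain ⟨Y, hY, hXY⟩ := h1
  have h2 : Y = X := Matrix.toLin'.injective hXY
  rw [← h2]
  exact hY

end Pool.Agent.Y758.ZD
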